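import Mathlib

/-!
# One step of the construction
-/

set_option autoImplicit false

namespace Pool.Agent.H83R2.PS

open Polynomial

/-- The pairing of `G` with `F ^ k`. -/
noncomputable def res (F : ℂ[X]) (G : ℕ → ℂ) (M k : ℕ) : ℂ :=
  ∑ m ∈ Finset.range (M + 1), G m * (F ^ k).coeff m

theorem coeff_pow_eq (F : ℂ[X]) (a : ℂ) (N k m : ℕ) (hm : m < N) :
    ((F + C a * X ^ N) ^ k).coeff m = (F ^ k).coeff m := by
  have h1 : X ^ N ∣ (F + C a * X ^ N) ^ k - F ^ k := by
    refine dvd_trans ?_ (sub_dvd_pow_sub_pow (F + C a * X ^ N) F k)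
    rw [add_sub_cancel_left]
    exact dvd_mul_left _ _
  have h2 := X_pow_dvd_iff.1 h1 m hm
  rw [coeff_sub, sub_eq_zero] at h2
  exact h2

/-- The error polynomial in `z`. -/
noncomputable def err (F : ℂ[X]) (N k0 k : ℕ) (z : ℂ) : ℂ :=
  ∑ i ∈ Finset.range (k + 1),
    if i < k0 then z ^ (k0 - i) * ((F ^ (k - i)).coeff ((k0 - i) * N) * (k.choose i : ℂ)) else 0

theorem err_cont (F : ℂ[X]) (N k0 k : ℕ) : Continuous (err F N k0 k) := by
  unfold err
  refine continuous_finset_sum _ fun i _ => ?_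
  split_ifs
  · fun_prop
  · exact continuous_const

theorem err_zero (F : ℂ[X]) (N k0 k : ℕ) : err F N k0 k 0 = 0 := by
  unfold err
  refine Finset.sum_eq_zero fun i _ => ?_
  split_ifs with h
  · rw [zero_pow (by omega), zero_mul]
  · rfl

theorem err_small (F : ℂ[X]) (n N k0 k : ℕ) (hF : F.natDegree ≤ n) (hN : n < N) (hk : k ≤ k0)
    (z : ℂ) : err F N k0 k z = 0 := by
  unfold err
  refine Finset.sum_eq_zero fun i hi => ?_
  rw [Finset.mem_range] at hi
  split_ifs with h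
  · have h1 : (F ^ (k - i)).coeff ((k0 - i) * N) = 0 := by
      refine coeff_eq_zero_of_natDegree_lt ?_
      refine lt_of_le_of_lt (natDegree_pow_le_of_le (k - i) hF) ?_
      calc (k - i) * n ≤ (k0 - i) * n := Nat.mul_le_mul_right _ (by omega)
        _ < (k0 - i) * N := Nat.mul_lt_mul_of_pos_left hN (by omega)
    rw [h1]
    ring
  · rfl

theorem coeff_term (P : ℂ[X]) (N k0 i c : ℕ) (hN : 0 < N) (t : ℂ) (ht : t ≠ 0) :
    t ^ k0 * ((C (1 / t) * X ^ N) ^ i * P * ((c : ℕ) : ℂ[X])).coeff (k0 * N) =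
      (if i < k0 then t ^ (k0 - i) * (P.coeff ((k0 - i) * N) * (c : ℂ)) else 0) +
        (if i = k0 then P.coeff 0 * (c : ℂ) else 0) := by
  rw [coeff_mul_natCast, mul_pow, ← C_pow, ← pow_mul, mul_assoc (C _), coeff_C_mul,
    coeff_X_pow_mul']
  rcases lt_trichotomy i k0 with h | h | h
  · rw [if_pos h, if_neg h.ne, add_zero, if_pos (by nlinarith)]
    have h1 : k0 * N - N * i = (k0 - i) * N := by
      rw [Nat.sub_mul, mul_comm N i]
    rw [h1]
    have h2 : t ^ k0 = t ^ (k0 - i) * t ^ i := by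
      rw [← pow_add]
      congr 1
      omega
    rw [h2, one_div, inv_pow]
    have h3 : t ^ i ≠ 0 := pow_ne_zero _ ht
    field_simp
  · subst h
    rw [if_neg (lt_irrefl _), if_pos rfl, zero_add, if_pos (by rw [mul_comm])]
    have h1 : i * N - N * i = 0 := by rw [mul_comm]; simp
    rw [h1, one_div, inv_pow]
    have h3 : t ^ i ≠ 0 := pow_ne_zero _ ht
    field_simp
  · have h1 : ¬ N * i ≤ k0 * N := by
      rw [not_le, mul_comm N i]
      exact Nat.mul_lt_mul_of_pos_right h hN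
    rw [if_neg h1, if_neg (show ¬ i < k0 by omega), if_neg (show ¬ i = k0 by omega)]
    simp

theorem coeff_key (F : ℂ[X]) (hF0 : F.coeff 0 = 0) (N k0 k : ℕ) (hN : 0 < N) (t : ℂ) (ht : t ≠ 0) :
    t ^ k0 * ((F + C (1 / t) * X ^ N) ^ k).coeff (k0 * N) =
      err F N k0 k t + if k = k0 then 1 else 0 := by
  rw [add_comm F, add_pow, finset_sum_coeff, Finset.mul_sum, err,
    Finset.sum_congr rfl fun i _ => coeff_term (F ^ (k - i)) N k0 i (k.choose i) hN t ht,
    Finset.sum_add_distrib]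
  congr 1
  rcases lt_trichotomy k k0 with h | h | h
  · rw [if_neg h.ne]
    refine Finset.sum_eq_zero fun i hi => ?_
    rw [Finset.mem_range] at hi
    rw [if_neg (by omega)]
  · subst h
    rw [if_pos rfl, Finset.sum_eq_single k]
    · simp
    · intro i _ hi
      rw [if_neg hi]
    · intro h
      exact absurd (Finset.mem_range.2 (Nat.lt_succ_self k)) h
  · rw [if_neg h.ne']
    refine Finset.sum_eq_zero fun i _ => ?_
    split_ifs with h1
    · subst h1
      have h2 : (F ^ (k - i)).coeff 0 = 0 := by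
        rw [coeff_zero_eq_eval_zero, eval_pow, ← coeff_zero_eq_eval_zero, hF0,
          zero_pow (by omega)]
      rw [h2, zero_mul]
    · rfl

/-- The state of the construction. -/
structure St where
  /-- exponent -/
  n : ℕ
  /-- weight at the exponent -/
  w : ℝ
  /-- partial sum of the power series -/
  F : ℂ[X]
  /-- partial functional -/
  G : ℕ → ℂ
  /-- bound for the support of the functional -/
  M : ℕ

/-- The invariants. -/
structure Inv (j : ℕ) (s : St) : Prop where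
  n1 : 1 ≤ s.n
  wpos : 0 < s.w
  w1 : s.w ≤ 1
  F0 : s.F.coeff 0 = 0
  Fdeg : s.F.natDegree ≤ s.n
  GM : ∀ m, s.M < m → s.G m = 0
  jM : j + 1 ≤ s.M
  r0 : ∀ k, 1 ≤ k → k ≤ j → res s.F s.G s.M k = 0
  r1 : ∀ k, j < k → ‖res s.F s.G s.M k‖ < (1 / 2 : ℝ) ^ (k * k)

/-- The relation between consecutive states. -/
structure Stp (j : ℕ) (s s' : St) : Prop where
  n' : s'.n = s.n * (s.M + 1)
  w' : ∃ θ : ℝ, 0 < θ ∧ θ ≤ 1 ∧ θ ≤ (1 / ((j : ℝ) + 1 + 1)) ^ (2 * s'.n) ∧
    s'.w = s.w ^ (s.M + 1) * θ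
  F' : ∃ a : ℂ, s'.F = s.F + C a * X ^ s'.n ∧ ‖a‖ * s'.w ≤ (1 / 2 : ℝ) ^ (j + 1)
  G' : ∀ m, m ≠ (j + 1) * s'.n → s'.G m = s.G m
  Gk : ‖s'.G ((j + 1) * s'.n)‖ ≤ s'.w ^ (j + 1)
  M' : s'.M = (j + 1) * s'.n

theorem res_update (F F' : ℂ[X]) (G : ℕ → ℂ) (M N k0 k : ℕ) (b : ℂ) (hGM : ∀ m, M < m → G m = 0)
    (hM : M < N) (hk0 : 1 ≤ k0)
    (hF : ∀ m, m < N → (F' ^ k).coeff m = (F ^ k).coeff m) :
    res F' (Function.update G (k0 * N) b) (k0 * N) k =
      res F G M k + b * (F' ^ k).coeff (k0 * N) := by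
  have hMN : M < k0 * N := lt_of_lt_of_le hM (Nat.le_mul_of_pos_left N hk0)
  rw [res, Finset.sum_range_succ, Function.update_self]
  congr 1
  rw [res]
  symm
  rw [Finset.sum_congr rfl (g := fun m => Function.update G (k0 * N) b m * (F' ^ k).coeff m)]
  · refine Finset.sum_subset ?_ ?_
    · intro m hm
      rw [Finset.mem_range] at hm ⊢
      omega
    · intro m hm hm'
      rw [Finset.mem_range] at hm hm'
      rw [Function.update_of_ne (by omega), hGM m (by omega), zero_mul]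
  · intro m hm
    rw [Finset.mem_range] at hm
    rw [Function.update_of_ne (by omega), hF m (by omega)]

theorem res_zero_of_lt (F : ℂ[X]) (hF0 : F.coeff 0 = 0) (G : ℕ → ℂ) (M k : ℕ) (hk : M < k) :
    res F G M k = 0 := by
  rw [res]
  refine Finset.sum_eq_zero fun m hm => ?_
  rw [Finset.mem_range] at hm
  have h1 : X ^ k ∣ F ^ k := pow_dvd_pow_of_dvd (X_dvd_iff.2 hF0) k
  rw [X_pow_dvd_iff.1 h1 m (by omega), mul_zero]

theorem step_exists (j : ℕ) (s : St) (h : Inv j s) : ∃ s', Inv (j + 1) s' ∧ Stp j s s' := by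
  obtain ⟨n1, wpos, w1, F0, Fdeg, GM, jM, r0, r1⟩ := h
  set N : ℕ := s.n * (s.M + 1) with hN
  set k0 : ℕ := j + 1 with hk0
  have hMN : s.M < N := by nlinarith
  have hnN : s.n < N := by nlinarith
  have hNpos : 0 < N := by omega
  have hNtwo : 2 ≤ N := by nlinarith
  set R : ℂ := res s.F s.G s.M k0 with hR
  -- the size of the errors
  have hev1 : ∀ k ∈ Finset.range (k0 * N + 1), ∀ᶠ t : ℝ in nhds 0,
      k0 < k → ‖res s.F s.G s.M k - R * err s.F N k0 k (t : ℂ)‖ < (1 / 2 : ℝ) ^ (k * k) := by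
    intro k _
    by_cases hk : k0 < k
    · have hc : Continuous fun t : ℝ => ‖res s.F s.G s.M k - R * err s.F N k0 k (t : ℂ)‖ :=
        (continuous_const.sub (continuous_const.mul
          ((err_cont s.F N k0 k).comp Complex.continuous_ofReal))).norm
      have h0 := hc.continuousAt (x := (0 : ℝ))
      have h1 : ‖res s.F s.G s.M k - R * err s.F N k0 k ((0 : ℝ) : ℂ)‖ < (1 / 2 : ℝ) ^ (k * k) := by
        rw [Complex.ofReal_zero, err_zero, mul_zero, sub_zero]
        exact r1 k (by omega)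
      filter_upwards [h0.eventually_lt_const h1] with t ht _ using ht
    · exact Filter.Eventually.of_forall fun t h => absurd h hk
  have hev2 := (Filter.eventually_all_finset (Finset.range (k0 * N + 1))).2 hev1
  obtain ⟨δ, hδ, hδ2⟩ := Metric.eventually_nhds_iff.1 hev2
  set B : ℝ := s.w ^ (s.M + 1) * (1 / ((j : ℝ) + 1 + 1)) ^ (2 * N) with hB
  have hq0 : 0 < 1 / ((j : ℝ) + 1 + 1) := by positivity
  have hq1 : 1 / ((j : ℝ) + 1 + 1) ≤ 1 := by
    rw [div_le_one (by positivity)]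
    have : (0 : ℝ) ≤ j := Nat.cast_nonneg j
    linarith
  have hwM : 0 < s.w ^ (s.M + 1) := pow_pos wpos _
  have hwM1 : s.w ^ (s.M + 1) ≤ 1 := pow_le_one₀ wpos.le w1
  have hBpos : 0 < B := by positivity
  set t : ℝ := min (δ / 2) B with ht
  have htpos : 0 < t := lt_min (by positivity) hBpos
  have htB : t ≤ B := min_le_right _ _
  have htδ : dist t 0 < δ := by
    rw [Real.dist_eq, sub_zero, abs_of_pos htpos]
    exact (min_le_left _ _).trans_lt (by linarith)
  have htne : (t : ℂ) ≠ 0 := by exact_mod_cast htpos.ne'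
  set c : ℝ := (1 / 2 : ℝ) ^ k0 with hc
  have hcpos : 0 < c := by positivity
  have hc1 : c ≤ 1 := pow_le_one₀ (by norm_num) (by norm_num)
  set F' : ℂ[X] := s.F + C (1 / (t : ℂ)) * X ^ N with hF'
  set G' : ℕ → ℂ := Function.update s.G (k0 * N) (-R * (t : ℂ) ^ k0) with hG'
  have hF'0 : F'.coeff 0 = 0 := by
    rw [hF', coeff_add, F0, zero_add, coeff_C_mul, coeff_X_pow, if_neg (by omega), mul_zero]
  have hres : ∀ k, res F' G' (k0 * N) k =
      res s.F s.G s.M k - R * (err s.F N k0 k (t : ℂ) + if k = k0 then 1 else 0) := by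
    intro k
    rw [hG', res_update s.F F' s.G s.M N k0 k _ GM hMN (by omega)
      (fun m hm => coeff_pow_eq s.F _ N k m hm), ← coeff_key s.F F0 N k0 k hNpos (t : ℂ) htne]
    ring
  have hθpos : 0 < c * t / s.w ^ (s.M + 1) := by positivity
  have hθle : c * t / s.w ^ (s.M + 1) ≤ (1 / ((j : ℝ) + 1 + 1)) ^ (2 * N) := by
    rw [div_le_iff₀ hwM]
    calc c * t ≤ 1 * B := mul_le_mul hc1 htB htpos.le zero_le_one
      _ = (1 / ((j : ℝ) + 1 + 1)) ^ (2 * N) * s.w ^ (s.M + 1) := by rw [hB]; ring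
  have hθ1 : c * t / s.w ^ (s.M + 1) ≤ 1 := hθle.trans (pow_le_one₀ hq0.le hq1)
  have hw' : s.w ^ (s.M + 1) * (c * t / s.w ^ (s.M + 1)) = c * t := by
    field_simp
  refine ⟨⟨N, c * t, F', G', k0 * N⟩, ⟨?_, ?_, ?_, hF'0, ?_, ?_, ?_, ?_, ?_⟩,
    ⟨rfl, ⟨_, hθpos, hθ1, hθle, hw'.symm⟩, ⟨1 / (t : ℂ), rfl, ?_⟩, ?_, ?_, rfl⟩⟩
  · exact hNpos
  · exact mul_pos hcpos htpos
  · show c * t ≤ 1
    rw [← hw']
    calc s.w ^ (s.M + 1) * (c * t / s.w ^ (s.M + 1)) ≤ 1 * 1 :=
          mul_le_mul hwM1 hθ1 hθpos.le zero_le_one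
      _ = 1 := one_mul 1
  · show F'.natDegree ≤ N
    rw [hF']
    refine (natDegree_add_le _ _).trans (max_le (Fdeg.trans hnN.le) ?_)
    exact natDegree_C_mul_X_pow_le _ _
  · intro m hm
    show G' m = 0
    have hm' : k0 * N < m := hm
    have hMk : N ≤ k0 * N := Nat.le_mul_of_pos_left N (by omega)
    rw [hG', Function.update_of_ne (by omega), GM m (by omega)]
  · show j + 1 + 1 ≤ k0 * N
    nlinarith
  · intro k hk1 hk2
    show res F' G' (k0 * N) k = 0
    rw [hres]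
    rcases Nat.lt_or_ge k k0 with hk | hk
    · rw [r0 k hk1 (by omega), err_small s.F s.n N k0 k Fdeg hnN hk.le, if_neg hk.ne]
      ring
    · obtain rfl : k = k0 := by omega
      rw [err_small s.F s.n N k0 k0 Fdeg hnN le_rfl, if_pos rfl]
      ring
  · intro k hk
    show ‖res F' G' (k0 * N) k‖ < (1 / 2 : ℝ) ^ (k * k)
    rcases Nat.lt_or_ge (k0 * N) k with hk2 | hk2
    · rw [res_zero_of_lt F' hF'0 G' _ k hk2, norm_zero]
      positivity
    · rw [hres, if_neg (by omega), add_zero]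
      exact hδ2 htδ k (Finset.mem_range.2 (by omega)) hk
  · show ‖1 / (t : ℂ)‖ * (c * t) ≤ (1 / 2 : ℝ) ^ (j + 1)
    rw [norm_div, norm_one, Complex.norm_real, Real.norm_of_nonneg htpos.le]
    have : 1 / t * (c * t) = c := by field_simp
    rw [this]
  · intro m hm
    show G' m = s.G m
    rw [hG', Function.update_of_ne hm]
  · show ‖G' ((j + 1) * N)‖ ≤ (c * t) ^ (j + 1)
    rw [hG', Function.update_self, norm_mul, norm_neg, norm_pow, Complex.norm_real,
      Real.norm_of_nonneg htpos.le, mul_pow]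
    refine mul_le_mul_of_nonneg_right ?_ (by positivity)
    have h1 := (r1 k0 (by omega)).le
    rw [hc, ← pow_mul]
    exact h1

end Pool.Agent.H83R2.PS
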