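import Pool.Agent.H83R2.PS.Wt
import Pool.Agent.H83R2.PS.Step

/-!
# The sequence of states and the conclusion
-/

set_option autoImplicit false

namespace Pool.Agent.H83R2.PS

open Polynomial

/-- The initial state. -/
noncomputable def st0 : St := ⟨1, 1, X, fun m => if m = 1 then 1 / 4 else 0, 1⟩

theorem inv0 : Inv 0 st0 := by
  refine ⟨le_rfl, one_pos, le_rfl, coeff_X_zero, natDegree_X_le, ?_, le_rfl, ?_, ?_⟩
  · intro m hm
    have hm' : 1 < m := hm
    show (if m = 1 then (1 / 4 : ℂ) else 0) = 0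
    rw [if_neg (by omega)]
  · intro k h1 h2
    omega
  · intro k hk
    show ‖res X (fun m => if m = 1 then (1 / 4 : ℂ) else 0) 1 k‖ < _
    have h1 : res X (fun m => if m = 1 then (1 / 4 : ℂ) else 0) 1 k = if k = 1 then 1 / 4 else 0 := by
      rw [res, Finset.sum_range_succ, Finset.sum_range_one, if_neg (by omega), if_pos rfl, zero_mul,
        zero_add, coeff_X_pow]
      by_cases hk1 : k = 1
      · rw [if_pos hk1.symm, if_pos hk1, mul_one]
      · rw [if_neg (Ne.symm hk1), if_neg hk1, mul_zero]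
    rw [h1]
    by_cases hk1 : k = 1
    · rw [if_pos hk1, hk1]
      norm_num
    · rw [if_neg hk1, norm_zero]
      positivity

/-- The sequence of states. -/
noncomputable def sq : (j : ℕ) → {s : St // Inv j s}
  | 0 => ⟨st0, inv0⟩
  | j + 1 => ⟨(step_exists j (sq j).1 (sq j).2).choose,
      (step_exists j (sq j).1 (sq j).2).choose_spec.1⟩

theorem sq_step (j : ℕ) : Stp j (sq j).1 (sq (j + 1)).1 :=
  (step_exists j (sq j).1 (sq j).2).choose_spec.2

/-- exponents -/
noncomputable def nn (j : ℕ) : ℕ := (sq j).1.n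

/-- weights -/
noncomputable def ww (j : ℕ) : ℝ := (sq j).1.w

/-- polynomials -/
noncomputable def FF (j : ℕ) : ℂ[X] := (sq j).1.F

/-- functionals -/
noncomputable def GG (j : ℕ) : ℕ → ℂ := (sq j).1.G

/-- bounds -/
noncomputable def MM (j : ℕ) : ℕ := (sq j).1.M

/-- factors -/
noncomputable def th : ℕ → ℝ
  | 0 => 1
  | j + 1 => (sq_step j).w'.choose

theorem th_pos (j : ℕ) : 0 < th j := by
  cases j with
  | zero => exact one_pos
  | succ j => exact (sq_step j).w'.choose_spec.1

theorem th_le (j : ℕ) : th j ≤ 1 := by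
  cases j with
  | zero => exact le_rfl
  | succ j => exact (sq_step j).w'.choose_spec.2.1

theorem nn_zero : nn 0 = 1 := rfl

theorem nn_succ (j : ℕ) : nn (j + 1) = nn j * (MM j + 1) := (sq_step j).n'

theorem MM_ge (j : ℕ) : j + 1 ≤ MM j := (sq j).2.jM

theorem nn_pos (j : ℕ) : 1 ≤ nn j := (sq j).2.n1

theorem MM_lt (j : ℕ) : MM j < nn (j + 1) := by
  rw [nn_succ]
  have := nn_pos j
  nlinarith

theorem lt_nn (j : ℕ) : j < nn j := by
  cases j with
  | zero => exact nn_pos 0
  | succ j => exact (MM_ge j).trans_lt (MM_lt j)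

theorem nn_lt (j : ℕ) : nn j < nn (j + 1) := by
  rw [nn_succ]
  have := nn_pos j
  have := MM_ge j
  nlinarith

theorem nn_mono : Monotone nn := monotone_nat_of_le_succ fun j => (nn_lt j).le

theorem th_small (i : ℕ) : th i ≤ (1 / ((i : ℝ) + 1)) ^ (2 * nn i) := by
  cases i with
  | zero => simp [th]
  | succ j =>
    have h := (sq_step j).w'.choose_spec.2.2.1
    have h2 : ((j + 1 : ℕ) : ℝ) + 1 = (j : ℝ) + 1 + 1 := by push_cast; ring
    rw [h2]
    exact h

theorem ww_zero : ww 0 = th 0 := rfl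

theorem ww_succ (j : ℕ) : ww (j + 1) = ww j ^ (MM j + 1) * th (j + 1) :=
  (sq_step j).w'.choose_spec.2.2.2

/-- the weight -/
noncomputable def om : ℕ → ℝ := wt nn th

theorem om_block (j k : ℕ) (hk : k * nn j < nn (j + 1)) : om (k * nn j) = ww j ^ k :=
  wt_block lt_nn nn_mono ww (fun j => MM j + 1) nn_zero nn_succ ww_zero ww_succ j k hk

theorem om_pos (m : ℕ) : 0 < om m := wt_pos th_pos m

theorem om_zero : om 0 = 1 := wt_zero

theorem om_submul (m m' : ℕ) : om (m + m') ≤ om m * om m' := wt_submul lt_nn th_pos th_le m m'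

theorem om_radical : Filter.Tendsto (fun m : ℕ => (om m) ^ (1 / (m : ℝ))) Filter.atTop (nhds 0) :=
  wt_radical lt_nn th_pos th_le th_small

theorem om_nn (j : ℕ) : om (nn j) = ww j := by
  have h := om_block j 1 (by rw [one_mul]; exact nn_lt j)
  rwa [one_mul, pow_one] at h

theorem om_one : om 1 = 1 := om_nn 0

theorem MM_succ (j : ℕ) : MM (j + 1) = (j + 1) * nn (j + 1) := (sq_step j).M'

theorem om_MM (j : ℕ) : om ((j + 1) * nn (j + 1)) = ww (j + 1) ^ (j + 1) :=
  om_block (j + 1) (j + 1) (by rw [← MM_succ]; exact MM_lt (j + 1))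

theorem FF_coeff_stable (J : ℕ) (m : ℕ) (hm : m < nn (J + 1)) :
    ∀ i, J ≤ i → (FF i).coeff m = (FF J).coeff m := by
  intro i hi
  induction i, hi using Nat.le_induction with
  | base => rfl
  | succ i hi ih =>
    obtain ⟨a, ha, -⟩ := (sq_step i).F'
    have h1 : FF (i + 1) = FF i + C a * X ^ nn (i + 1) := ha
    have h2 : nn (J + 1) ≤ nn (i + 1) := nn_mono (by omega)
    rw [h1, coeff_add, ih, coeff_C_mul, coeff_X_pow, if_neg (by omega), mul_zero, add_zero]

theorem GG_stable (J : ℕ) (m : ℕ) (hm : m < nn (J + 1)) :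
    ∀ i, J ≤ i → GG i m = GG J m := by
  intro i hi
  induction i, hi using Nat.le_induction with
  | base => rfl
  | succ i hi ih =>
    have h2 : nn (J + 1) ≤ nn (i + 1) := nn_mono (by omega)
    have h3 : nn (i + 1) ≤ (i + 1) * nn (i + 1) := Nat.le_mul_of_pos_left _ (by omega)
    have h1 : GG (i + 1) m = GG i m := (sq_step i).G' m (by
      show m ≠ (i + 1) * nn (i + 1)
      omega)
    rw [h1, ih]

/-- the power series -/
noncomputable def ff : PowerSeries ℂ := PowerSeries.mk fun m => (FF m).coeff m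

/-- the functional -/
noncomputable def gam (m : ℕ) : ℂ := GG m m

theorem ff_coeff (J m : ℕ) (hm : m < nn (J + 1)) : PowerSeries.coeff m ff = (FF J).coeff m := by
  rw [ff, PowerSeries.coeff_mk]
  rcases le_total m J with h | h
  · exact (FF_coeff_stable m m (by have := lt_nn (m + 1); omega) J h).symm
  · exact FF_coeff_stable J m hm m h

theorem gam_eq (J m : ℕ) (hm : m < nn (J + 1)) : gam m = GG J m := by
  rw [gam]
  rcases le_total m J with h | h
  · exact (GG_stable m m (by have := lt_nn (m + 1); omega) J h).symm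
  · exact GG_stable J m hm m h

theorem ff_pow_coeff (J k m : ℕ) (hm : m < nn (J + 1)) :
    PowerSeries.coeff m (ff ^ k) = ((FF J) ^ k).coeff m := by
  have h1 : (PowerSeries.X : PowerSeries ℂ) ^ nn (J + 1) ∣ ff - ((FF J : ℂ[X]) : PowerSeries ℂ) := by
    rw [PowerSeries.X_pow_dvd_iff]
    intro m hm
    rw [map_sub, ff_coeff J m hm, Polynomial.coeff_coe, sub_self]
  have h2 := h1.trans (sub_dvd_pow_sub_pow ff ((FF J : ℂ[X]) : PowerSeries ℂ) k)
  have h3 := PowerSeries.X_pow_dvd_iff.1 h2 m hm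
  rw [map_sub, sub_eq_zero, ← Polynomial.coe_pow, Polynomial.coeff_coe] at h3
  exact h3

theorem FF_sum_le (L : ℕ) (J : ℕ) :
    ∑ m ∈ Finset.range L, ‖(FF J).coeff m‖ * om m ≤ 2 - (1 / 2 : ℝ) ^ J := by
  induction J with
  | zero =>
    have h1 : ∀ m ∈ Finset.range L, ‖(FF 0).coeff m‖ * om m = if m = 1 then 1 else 0 := by
      intro m _
      have h0 : FF 0 = X := rfl
      rw [h0, coeff_X]
      by_cases hm : m = 1
      · rw [if_pos hm.symm, if_pos hm, hm, om_one, norm_one, one_mul]
      · rw [if_neg (Ne.symm hm), if_neg hm, norm_zero, zero_mul]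
    rw [Finset.sum_congr rfl h1, Finset.sum_ite_eq' (Finset.range L) 1 (fun _ => (1 : ℝ))]
    split_ifs <;> norm_num
  | succ J ih =>
    obtain ⟨a, ha, ha2⟩ := (sq_step J).F'
    have h1 : FF (J + 1) = FF J + C a * X ^ nn (J + 1) := ha
    have ha3 : ‖a‖ * om (nn (J + 1)) ≤ (1 / 2 : ℝ) ^ (J + 1) := by
      rw [om_nn]
      exact ha2
    have h2 : ∀ m ∈ Finset.range L, ‖(FF (J + 1)).coeff m‖ * om m ≤
        ‖(FF J).coeff m‖ * om m + if m = nn (J + 1) then ‖a‖ * om (nn (J + 1)) else 0 := by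
      intro m _
      rw [h1, coeff_add, coeff_C_mul, coeff_X_pow]
      by_cases hm : m = nn (J + 1)
      · rw [if_pos hm, if_pos hm, mul_one, ← hm, ← add_mul]
        exact mul_le_mul_of_nonneg_right (norm_add_le _ _) (om_pos m).le
      · rw [if_neg hm, if_neg hm, mul_zero, add_zero, add_zero]
    refine (Finset.sum_le_sum h2).trans ?_
    rw [Finset.sum_add_distrib, Finset.sum_ite_eq' (Finset.range L) (nn (J + 1))
      (fun _ => ‖a‖ * om (nn (J + 1)))]
    have h3 : (if nn (J + 1) ∈ Finset.range L then ‖a‖ * om (nn (J + 1)) else 0) ≤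
        (1 / 2 : ℝ) ^ (J + 1) := by
      split_ifs
      · exact ha3
      · positivity
    have h4 : (1 / 2 : ℝ) ^ (J + 1) = (1 / 2 : ℝ) ^ J / 2 := by rw [pow_succ]; ring
    linarith

theorem ff_summable : Summable (fun m : ℕ => ‖PowerSeries.coeff m ff‖ * om m) := by
  refine summable_of_sum_range_le (c := 2) (fun m => mul_nonneg (norm_nonneg _) (om_pos m).le) ?_
  intro L
  have h1 : ∑ m ∈ Finset.range L, ‖PowerSeries.coeff m ff‖ * om m =
      ∑ m ∈ Finset.range L, ‖(FF L).coeff m‖ * om m := by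
    refine Finset.sum_congr rfl fun m hm => ?_
    rw [Finset.mem_range] at hm
    rw [ff_coeff L m (by have := lt_nn (L + 1); omega)]
  rw [h1]
  refine (FF_sum_le L L).trans ?_
  have : (0 : ℝ) ≤ (1 / 2 : ℝ) ^ L := by positivity
  linarith

theorem GG_norm_le (J : ℕ) : ∀ m, ‖GG J m‖ ≤ om m := by
  induction J with
  | zero =>
    intro m
    have h0 : GG 0 m = if m = 1 then 1 / 4 else 0 := rfl
    rw [h0]
    split_ifs with hm
    · rw [hm, om_one]
      norm_num
    · rw [norm_zero]
      exact (om_pos m).le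
  | succ J ih =>
    intro m
    by_cases hm : m = (J + 1) * nn (J + 1)
    · rw [hm, om_MM]
      exact (sq_step J).Gk
    · have h1 : GG (J + 1) m = GG J m := (sq_step J).G' m hm
      rw [h1]
      exact ih m

theorem gam_norm_le (m : ℕ) : ‖gam m‖ ≤ om m := GG_norm_le m m

theorem mul_summable (a b : PowerSeries ℂ)
    (ha : Summable (fun m : ℕ => ‖PowerSeries.coeff m a‖ * om m))
    (hb : Summable (fun m : ℕ => ‖PowerSeries.coeff m b‖ * om m)) :
    Summable (fun m : ℕ => ‖PowerSeries.coeff m (a * b)‖ * om m) := by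
  have ha' : Summable (fun m : ℕ => ‖‖PowerSeries.coeff m a‖ * om m‖) := ha.norm
  have hb' : Summable (fun m : ℕ => ‖‖PowerSeries.coeff m b‖ * om m‖) := hb.norm
  have h := summable_norm_sum_mul_antidiagonal_of_summable_norm ha' hb'
  refine Summable.of_nonneg_of_le (fun m => mul_nonneg (norm_nonneg _) (om_pos m).le) ?_ h
  intro m
  refine le_trans ?_ (le_abs_self _)
  rw [PowerSeries.coeff_mul]
  calc ‖∑ p ∈ Finset.HasAntidiagonal.antidiagonal m, PowerSeries.coeff p.1 a * PowerSeries.coeff p.2 b‖ * om m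
      ≤ (∑ p ∈ Finset.HasAntidiagonal.antidiagonal m, ‖PowerSeries.coeff p.1 a‖ * ‖PowerSeries.coeff p.2 b‖) * om m := by
        refine mul_le_mul_of_nonneg_right ((norm_sum_le _ _).trans (le_of_eq ?_)) (om_pos m).le
        exact Finset.sum_congr rfl fun p _ => norm_mul _ _
    _ = ∑ p ∈ Finset.HasAntidiagonal.antidiagonal m, ‖PowerSeries.coeff p.1 a‖ * ‖PowerSeries.coeff p.2 b‖ * om m := by
        rw [Finset.sum_mul]
    _ ≤ ∑ p ∈ Finset.HasAntidiagonal.antidiagonal m,
          (‖PowerSeries.coeff p.1 a‖ * om p.1) * (‖PowerSeries.coeff p.2 b‖ * om p.2) := by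
        refine Finset.sum_le_sum fun p hp => ?_
        have hp' : p.1 + p.2 = m := Finset.HasAntidiagonal.mem_antidiagonal.1 hp
        have h1 := om_submul p.1 p.2
        rw [hp'] at h1
        calc ‖PowerSeries.coeff p.1 a‖ * ‖PowerSeries.coeff p.2 b‖ * om m
            ≤ ‖PowerSeries.coeff p.1 a‖ * ‖PowerSeries.coeff p.2 b‖ * (om p.1 * om p.2) :=
              mul_le_mul_of_nonneg_left h1 (mul_nonneg (norm_nonneg _) (norm_nonneg _))
          _ = _ := by ring

theorem finsupp_summable (a : PowerSeries ℂ) (s : Finset ℕ)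
    (h : ∀ m, m ∉ s → PowerSeries.coeff m a = 0) :
    Summable (fun m : ℕ => ‖PowerSeries.coeff m a‖ * om m) := by
  refine summable_of_ne_finset_zero (s := s) fun m hm => ?_
  rw [h m hm, norm_zero, zero_mul]

theorem pow_summable (k : ℕ) : Summable (fun m : ℕ => ‖PowerSeries.coeff m (ff ^ k)‖ * om m) := by
  induction k with
  | zero =>
    refine finsupp_summable _ {0} fun m hm => ?_
    rw [Finset.mem_singleton] at hm
    rw [pow_zero, PowerSeries.coeff_one, if_neg hm]
  | succ k ih =>
    rw [pow_succ]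
    exact mul_summable _ _ ih ff_summable

theorem pair_summable (a : PowerSeries ℂ)
    (ha : Summable (fun m : ℕ => ‖PowerSeries.coeff m a‖ * om m)) :
    Summable (fun m : ℕ => gam m * PowerSeries.coeff m a) := by
  refine Summable.of_norm_bounded ha fun m => ?_
  rw [norm_mul, mul_comm]
  exact mul_le_mul_of_nonneg_left (gam_norm_le m) (norm_nonneg _)

theorem pair_pow (k : ℕ) (hk : 1 ≤ k) :
    HasSum (fun m : ℕ => gam m * PowerSeries.coeff m (ff ^ k)) 0 := by
  have hs := (pair_summable _ (pow_summable k)).hasSum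
  have ht := hs.tendsto_sum_nat
  have hM : Filter.Tendsto (fun J : ℕ => MM J + 1) Filter.atTop Filter.atTop := by
    refine Filter.tendsto_atTop_mono (fun J => ?_) Filter.tendsto_id
    have := MM_ge J
    show J ≤ MM J + 1
    omega
  have ht2 := ht.comp hM
  have h0 : ∀ᶠ J : ℕ in Filter.atTop,
      ((fun n => ∑ m ∈ Finset.range n, gam m * PowerSeries.coeff m (ff ^ k)) ∘
        fun J : ℕ => MM J + 1) J = 0 := by
    filter_upwards [Filter.eventually_ge_atTop k] with J hJ
    show ∑ m ∈ Finset.range (MM J + 1), gam m * PowerSeries.coeff m (ff ^ k) = 0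
    have h1 : ∑ m ∈ Finset.range (MM J + 1), gam m * PowerSeries.coeff m (ff ^ k) =
        res (FF J) (GG J) (MM J) k := by
      rw [res]
      refine Finset.sum_congr rfl fun m hm => ?_
      rw [Finset.mem_range] at hm
      have hm' : m < nn (J + 1) := by have := MM_lt J; omega
      rw [gam_eq J m hm', ff_pow_coeff J k m hm']
    rw [h1]
    exact (sq J).2.r0 k hk hJ
  have ht3 := (Filter.tendsto_congr' h0).1 ht2
  have h4 : ∑' m, gam m * PowerSeries.coeff m (ff ^ k) = 0 :=
    tendsto_nhds_unique ht3 tendsto_const_nhds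
  rw [h4] at hs
  exact hs

theorem gam_one : gam 1 = 1 / 4 := by
  have h : 1 < nn (0 + 1) := nn_lt 0
  rw [gam_eq 0 1 h]
  rfl

theorem aeval_coeff (p : ℂ[X]) (m : ℕ) :
    PowerSeries.coeff m (Polynomial.aeval ff p) =
      ∑ k ∈ Finset.range (p.natDegree + 1), p.coeff k * PowerSeries.coeff m (ff ^ k) := by
  rw [Polynomial.aeval_eq_sum_range, map_sum]
  refine Finset.sum_congr rfl fun k _ => ?_
  rw [LinearMap.map_smul, smul_eq_mul]

theorem aeval_summable (p : ℂ[X]) :
    Summable (fun m : ℕ => ‖PowerSeries.coeff m (Polynomial.aeval ff p)‖ * om m) := by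
  have h : Summable (fun m : ℕ => ∑ k ∈ Finset.range (p.natDegree + 1),
      ‖p.coeff k‖ * (‖PowerSeries.coeff m (ff ^ k)‖ * om m)) :=
    summable_sum fun k _ => (pow_summable k).mul_left _
  refine Summable.of_nonneg_of_le (fun m => mul_nonneg (norm_nonneg _) (om_pos m).le) ?_ h
  intro m
  rw [aeval_coeff]
  calc ‖∑ k ∈ Finset.range (p.natDegree + 1), p.coeff k * PowerSeries.coeff m (ff ^ k)‖ * om m
      ≤ (∑ k ∈ Finset.range (p.natDegree + 1), ‖p.coeff k‖ * ‖PowerSeries.coeff m (ff ^ k)‖) * om m := by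
        refine mul_le_mul_of_nonneg_right ((norm_sum_le _ _).trans (le_of_eq ?_)) (om_pos m).le
        exact Finset.sum_congr rfl fun k _ => norm_mul _ _
    _ = _ := by
        rw [Finset.sum_mul]
        exact Finset.sum_congr rfl fun k _ => mul_assoc _ _ _

theorem pair_aeval (p : ℂ[X]) (hp : p.coeff 0 = 0) :
    HasSum (fun m : ℕ => gam m * PowerSeries.coeff m (Polynomial.aeval ff p)) 0 := by
  have h : HasSum (fun m : ℕ => ∑ k ∈ Finset.range (p.natDegree + 1),
      p.coeff k * (gam m * PowerSeries.coeff m (ff ^ k)))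
      (∑ k ∈ Finset.range (p.natDegree + 1), (0 : ℂ)) := by
    refine hasSum_sum fun k _ => ?_
    rcases Nat.eq_zero_or_pos k with hk | hk
    · subst hk
      simp only [hp, zero_mul]
      exact hasSum_zero
    · have := (pair_pow k hk).mul_left (p.coeff k)
      rwa [mul_zero] at this
  rw [Finset.sum_const_zero] at h
  have he : (fun m : ℕ => gam m * PowerSeries.coeff m (Polynomial.aeval ff p)) =
      fun m : ℕ => ∑ k ∈ Finset.range (p.natDegree + 1),
        p.coeff k * (gam m * PowerSeries.coeff m (ff ^ k)) := by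
    funext m
    rw [aeval_coeff, Finset.mul_sum]
    exact Finset.sum_congr rfl fun k _ => by ring
  rw [he]
  exact h

theorem final (p : ℂ[X]) (hp : p.coeff 0 = 0) :
    (1 / 4 : ℝ) ≤ ∑' m : ℕ,
      ‖PowerSeries.coeff m ((PowerSeries.X : PowerSeries ℂ) - Polynomial.aeval ff p)‖ * om m := by
  have hX : Summable (fun m : ℕ => ‖PowerSeries.coeff m (PowerSeries.X : PowerSeries ℂ)‖ * om m) := by
    refine finsupp_summable _ {1} fun m hm => ?_
    rw [Finset.mem_singleton] at hm
    rw [PowerSeries.coeff_X, if_neg hm]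
  have hXs : HasSum (fun m : ℕ => gam m * PowerSeries.coeff m (PowerSeries.X : PowerSeries ℂ))
      (1 / 4) := by
    have h := hasSum_single (f := fun m : ℕ => gam m *
      PowerSeries.coeff m (PowerSeries.X : PowerSeries ℂ)) 1 (fun m hm => by
        show gam m * PowerSeries.coeff m (PowerSeries.X : PowerSeries ℂ) = 0
        rw [PowerSeries.coeff_X, if_neg hm, mul_zero])
    have h2 : gam 1 * PowerSeries.coeff 1 (PowerSeries.X : PowerSeries ℂ) = 1 / 4 := by
      rw [PowerSeries.coeff_one_X, mul_one, gam_one]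
    rw [h2] at h
    exact h
  have hd : HasSum (fun m : ℕ => gam m *
      PowerSeries.coeff m ((PowerSeries.X : PowerSeries ℂ) - Polynomial.aeval ff p)) (1 / 4) := by
    have h := hXs.sub (pair_aeval p hp)
    rw [sub_zero] at h
    have he : (fun m : ℕ => gam m *
        PowerSeries.coeff m ((PowerSeries.X : PowerSeries ℂ) - Polynomial.aeval ff p)) =
        fun m : ℕ => gam m * PowerSeries.coeff m (PowerSeries.X : PowerSeries ℂ) -
          gam m * PowerSeries.coeff m (Polynomial.aeval ff p) := by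
      funext m
      rw [map_sub, mul_sub]
    rw [he]
    exact h
  have hsum : Summable (fun m : ℕ =>
      ‖PowerSeries.coeff m ((PowerSeries.X : PowerSeries ℂ) - Polynomial.aeval ff p)‖ * om m) := by
    refine Summable.of_nonneg_of_le (fun m => mul_nonneg (norm_nonneg _) (om_pos m).le) ?_
      (hX.add (aeval_summable p))
    intro m
    rw [map_sub, ← add_mul]
    exact mul_le_mul_of_nonneg_right (norm_sub_le _ _) (om_pos m).le
  have h1 : ‖(1 / 4 : ℂ)‖ ≤ ∑' m : ℕ,
      ‖PowerSeries.coeff m ((PowerSeries.X : PowerSeries ℂ) - Polynomial.aeval ff p)‖ * om m := by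
    rw [← hd.tsum_eq]
    refine tsum_of_norm_bounded hsum.hasSum fun m => ?_
    rw [norm_mul, mul_comm]
    exact mul_le_mul_of_nonneg_left (gam_norm_le m) (norm_nonneg _)
  have h2 : ‖(1 / 4 : ℂ)‖ = 1 / 4 := by norm_num
  rwa [h2] at h1

theorem ff_zero : PowerSeries.coeff 0 ff = 0 := by
  rw [ff_coeff 0 0 (by have := lt_nn (0 + 1); omega)]
  exact coeff_X_zero

theorem ff_one : PowerSeries.coeff 1 ff ≠ 0 := by
  rw [ff_coeff 0 1 (nn_lt 0)]
  have h0 : FF 0 = X := rfl
  rw [h0, coeff_X_one]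
  exact one_ne_zero

theorem X_summable :
    Summable (fun m : ℕ => ‖PowerSeries.coeff m (PowerSeries.X : PowerSeries ℂ)‖ * om m) := by
  refine finsupp_summable _ {1} fun m hm => ?_
  rw [Finset.mem_singleton] at hm
  rw [PowerSeries.coeff_X, if_neg hm]

end Pool.Agent.H83R2.PS
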