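import Mathlib

/-!
# Radical weights given by products
-/

set_option autoImplicit false

namespace Pool.Agent.H83R2.PS

/-- The weight `∏ i, θ i ^ (m / n i)`. -/
noncomputable def wt (n : ℕ → ℕ) (θ : ℕ → ℝ) (m : ℕ) : ℝ :=
  ∏ i ∈ Finset.range (m + 1), θ i ^ (m / n i)

variable {n : ℕ → ℕ} {θ : ℕ → ℝ}

theorem wt_eq (hn : ∀ i, i < n i) (m L : ℕ) (hL : ∀ i, L ≤ i → m < n i) :
    wt n θ m = ∏ i ∈ Finset.range L, θ i ^ (m / n i) := by
  have h1 : ∀ L', (∀ i, L' ≤ i → m < n i) →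
      ∏ i ∈ Finset.range L', θ i ^ (m / n i) =
        ∏ i ∈ Finset.range (max L' (max L (m + 1))), θ i ^ (m / n i) := by
    intro L' hL'
    refine Finset.prod_subset (Finset.range_mono (le_max_left _ _)) ?_
    intro i _ hi
    rw [Finset.mem_range, not_lt] at hi
    rw [Nat.div_eq_of_lt (hL' i hi), pow_zero]
  rw [wt, h1 (m + 1) (fun i hi => lt_of_lt_of_le (by omega) (hn i).le |>.trans_le le_rfl), h1 L hL]
  congr 2
  omega

theorem wt_pos (hθ : ∀ i, 0 < θ i) (m : ℕ) : 0 < wt n θ m :=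
  Finset.prod_pos fun i _ => pow_pos (hθ i) _

theorem wt_zero : wt n θ 0 = 1 := by
  simp [wt]

theorem wt_submul (hn : ∀ i, i < n i) (hθ : ∀ i, 0 < θ i) (hθ1 : ∀ i, θ i ≤ 1) (m m' : ℕ) :
    wt n θ (m + m') ≤ wt n θ m * wt n θ m' := by
  rw [wt_eq hn m (m + m' + 1) (fun i hi => by have := hn i; omega),
    wt_eq hn m' (m + m' + 1) (fun i hi => by have := hn i; omega), ← Finset.prod_mul_distrib, wt]
  refine Finset.prod_le_prod (fun i _ => (pow_pos (hθ i) _).le) fun i _ => ?_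
  rw [← pow_add]
  refine pow_le_pow_of_le_one (hθ i).le (hθ1 i) ?_
  exact Nat.add_div_le_add_div m m' (n i)

theorem wt_le (hn : ∀ i, i < n i) (hθ : ∀ i, 0 < θ i) (hθ1 : ∀ i, θ i ≤ 1) (m J : ℕ)
    (hm : n J ≤ m) (ε : ℝ) (hε : 0 ≤ ε) (hε1 : ε ≤ 1) (hJ : θ J ≤ ε ^ (2 * n J)) :
    wt n θ m ≤ ε ^ m := by
  have hJm : J < m + 1 := by have := hn J; omega
  have h1 : wt n θ m ≤ θ J ^ (m / n J) := by
    rw [wt, ← Finset.mul_prod_erase _ _ (Finset.mem_range.2 hJm)]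
    refine mul_le_of_le_one_right (pow_pos (hθ J) _).le ?_
    exact Finset.prod_le_one (fun i _ => (pow_pos (hθ i) _).le) fun i _ =>
      pow_le_one₀ (hθ i).le (hθ1 i)
  refine h1.trans ((pow_le_pow_left₀ (hθ J).le hJ _).trans ?_)
  rw [← pow_mul]
  refine pow_le_pow_of_le_one hε hε1 ?_
  have hnJ : 0 < n J := by have := hn J; omega
  have h2 : m < n J * (m / n J + 1) := Nat.lt_mul_div_succ m hnJ
  have h3 : 1 ≤ m / n J := (Nat.one_le_div_iff hnJ).2 hm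
  nlinarith

theorem wt_radical (hn : ∀ i, i < n i) (hθ : ∀ i, 0 < θ i) (hθ1 : ∀ i, θ i ≤ 1)
    (hJ : ∀ i : ℕ, θ i ≤ (1 / ((i : ℝ) + 1)) ^ (2 * n i)) :
    Filter.Tendsto (fun m : ℕ => (wt n θ m) ^ (1 / (m : ℝ))) Filter.atTop (nhds 0) := by
  rw [Metric.tendsto_atTop]
  intro ε hε
  obtain ⟨J, hJ1⟩ := exists_nat_one_div_lt hε
  refine ⟨n J, fun m hm => ?_⟩
  have hm0 : 0 < m := by have := hn J; omega
  have hpos : 0 ≤ 1 / ((J : ℝ) + 1) := by positivity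
  have hle1 : 1 / ((J : ℝ) + 1) ≤ 1 := by
    rw [div_le_one (by positivity)]
    have : (0 : ℝ) ≤ J := Nat.cast_nonneg J
    linarith
  have h1 := wt_le hn hθ hθ1 m J hm (1 / ((J : ℝ) + 1)) hpos hle1 (hJ J)
  rw [Real.dist_eq, sub_zero, abs_of_nonneg (Real.rpow_nonneg (wt_pos hθ m).le _)]
  refine lt_of_le_of_lt ?_ hJ1
  calc wt n θ m ^ (1 / (m : ℝ)) ≤ ((1 / ((J : ℝ) + 1)) ^ m) ^ (1 / (m : ℝ)) :=
        Real.rpow_le_rpow (wt_pos hθ m).le h1 (by positivity)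
    _ = 1 / ((J : ℝ) + 1) := by
        rw [← Real.rpow_natCast, ← Real.rpow_mul hpos, mul_one_div_cancel (by positivity),
          Real.rpow_one]

theorem prod_block (W : ℕ → ℝ) (d : ℕ → ℕ) (hn0 : n 0 = 1) (hd : ∀ i, n (i + 1) = n i * d i)
    (hpos : ∀ i, 0 < n i) (hW0 : W 0 = θ 0) (hW : ∀ i, W (i + 1) = W i ^ d i * θ (i + 1)) :
    ∀ j k : ℕ, ∏ i ∈ Finset.range (j + 1), θ i ^ (k * n j / n i) = W j ^ k := by
  intro j
  induction j with
  | zero =>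
    intro k
    simp [hn0, hW0]
  | succ j ih =>
    intro k
    rw [Finset.prod_range_succ]
    have h1 : k * n (j + 1) = (k * d j) * n j := by rw [hd]; ring
    have h2 : ∏ i ∈ Finset.range (j + 1), θ i ^ (k * n (j + 1) / n i) = W j ^ (k * d j) := by
      rw [h1]
      exact ih (k * d j)
    rw [h2, Nat.mul_div_cancel _ (hpos (j + 1)), hW, mul_pow, ← pow_mul, mul_comm (d j) k]

theorem wt_block (hn : ∀ i, i < n i) (hmono : Monotone n) (W : ℕ → ℝ) (d : ℕ → ℕ) (hn0 : n 0 = 1)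
    (hd : ∀ i, n (i + 1) = n i * d i) (hW0 : W 0 = θ 0)
    (hW : ∀ i, W (i + 1) = W i ^ d i * θ (i + 1)) (j k : ℕ) (hk : k * n j < n (j + 1)) :
    wt n θ (k * n j) = W j ^ k := by
  rw [wt_eq hn (k * n j) (j + 1) (fun i hi => hk.trans_le (hmono hi))]
  exact prod_block W d hn0 hd (fun i => by have := hn i; omega) hW0 hW j k

end Pool.Agent.H83R2.PS
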